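import Pool.Agent.Helper6.O3.St

set_option autoImplicit false

/-!
# Project O3, module CV: perfect positive sequences have positive real roots
-/

namespace Pool.Agent.Helper2.O3

open Pool.Agent.Helper6.O3 Filter Topology
open Pool.Agent.Helper99.DF (T TL sq chk Cert ver StVER StTRA StCMP StSND StPR1 StPRC StVP)

theorem hCV (hRT : StRT) (hOS : StOS) : StCV := by
  intro c p q r h0 h1 hpos hT hka hr
  have hlc : ∀ k, 2 ≤ k → c k * c (k + 2) ≤ c (k + 1) ^ 2 := by
    intro k hk
    have h2 := hT (k + 1) (by omega)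
    simp only [T, show k + 1 - 1 = k by omega, show k + 1 + 1 = k + 2 by omega] at h2
    linarith
  obtain ⟨l, hl, -, hle, hroot⟩ := hRT c p q r 2 0 hpos hlc (fun m _ => hka m) hr.ne'
  have hlne : l ≠ 0 := hl.ne'
  set Q := r / l with hQ
  have hQpos : 0 < Q := div_pos hr hl
  have hr' : r = Q * l := by rw [hQ]; field_simp
  have hq' : q = -(l * (p - l) + Q) := by
    have h2 : l * q = l * (-(l * (p - l) + Q)) := by
      rw [hr'] at hroot
      linear_combination -hroot
    exact mul_left_cancel₀ hlne h2
  let e : ℕ → ℝ := fun n => c (n + 1) - l * c n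
  have hrec : ∀ n, e (n + 2) = (p - l) * e (n + 1) - Q * e n := by
    intro n
    have h2 := hka n
    simp only [ka] at h2
    simp only [e, show n + 2 + 1 = n + 3 by omega, show n + 1 + 1 = n + 2 by omega]
    rw [hq', hr'] at h2
    linear_combination h2
  have he1 : 0 < e 1 := by
    simp only [e, h1, mul_zero, sub_zero]
    exact hpos 2 le_rfl
  have hnn : ∀ n, 2 ≤ n → 0 ≤ e n := by
    intro n hn
    simp only [e]
    linarith [hle n hn]
  have hepos : ∀ n, 0 < e (n + 1) := by
    intro n
    induction n with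
    | zero => exact he1
    | succ n ih =>
      have h2 := hnn (n + 1 + 1) (by omega)
      rcases h2.eq_or_lt with h3 | h3
      · exfalso
        have h4 := hrec (n + 1)
        have h5 := hnn (n + 1 + 2) (by omega)
        have e1 : n + 1 + 1 = n + 2 := by omega
        rw [h4, ← h3] at h5
        nlinarith [mul_pos hQpos ih]
      · exact h3
  obtain ⟨h4, h5, -⟩ := hOS (fun n => e (n + 1)) (p - l) Q hepos hQpos (fun n => hrec (n + 1))
  refine ⟨by linarith, ?_, ?_⟩
  · rw [hq']
    nlinarith [mul_pos hl h5]
  · have h6 : dis p q r = ((p - l) ^ 2 - 4 * Q) * (l ^ 2 - (p - l) * l + Q) ^ 2 := by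
      unfold dis
      rw [hq', hr']
      ring
    rw [h6]
    exact mul_nonneg (by linarith) (sq_nonneg _)

end Pool.Agent.Helper2.O3
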