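import Pool.Agent.Helper6.O3.St

set_option autoImplicit false

/-!
# Project O3, module SP: splitting at a zero pair
-/

namespace Pool.Agent.Helper2.O3

open Pool.Agent.Helper6.O3 Filter Topology
open Pool.Agent.Helper99.DF (T TL sq chk Cert ver StVER StTRA StCMP StSND StPR1 StPRC StVP)

theorem T_lb (c : ℕ → ℝ) (n : ℕ) (h : c n = 0) (h' : c (n + 1) = 0) :
    T (lb n c) = lb n (T c) := by
  funext k
  simp only [T, lb]
  rcases lt_trichotomy k n with hk | hk | hk
  · rw [if_pos hk.le, if_pos (show k - 1 ≤ n by omega), if_pos (show k + 1 ≤ n by omega),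
      if_pos hk.le]
  · subst hk
    rw [if_pos le_rfl, if_neg (show ¬ k + 1 ≤ k by omega), if_pos le_rfl, h, h']
    ring
  · rw [if_neg (show ¬ k ≤ n by omega), if_neg (show ¬ k + 1 ≤ n by omega),
      if_neg (show ¬ k ≤ n by omega)]
    ring

theorem T_shift (c : ℕ → ℝ) (n : ℕ) (h : c n = 0) (h' : c (n + 1) = 0) :
    T (fun k => c (k + n)) = fun k => (T c) (k + n) := by
  funext k
  simp only [T]
  rcases Nat.eq_zero_or_pos k with rfl | hk
  · have e1 : 0 - 1 + n = n := by omega
    have e3 : 0 + 1 + n = n + 1 := by omega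
    simp only [e1, e3, h, h']
    ring
  · have e1 : k - 1 + n = k + n - 1 := by omega
    have e2 : k + 1 + n = k + n + 1 := by omega
    rw [e1, e2]

theorem iter_lb (c : ℕ → ℝ) (n : ℕ) (h : c n = 0) (h' : c (n + 1) = 0) (t : ℕ) :
    T^[t] (lb n c) = lb n (T^[t] c) := by
  induction t with
  | zero => rfl
  | succ t ih =>
    rw [Function.iterate_succ_apply', ih, T_lb _ n (T_pair h h' t).1 (T_pair h h' t).2,
      Function.iterate_succ_apply']

theorem iter_shift (c : ℕ → ℝ) (n : ℕ) (h : c n = 0) (h' : c (n + 1) = 0) (t : ℕ) :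
    T^[t] (fun k => c (k + n)) = fun k => (T^[t] c) (k + n) := by
  induction t with
  | zero => rfl
  | succ t ih =>
    rw [Function.iterate_succ_apply', ih, T_shift _ n (T_pair h h' t).1 (T_pair h h' t).2,
      Function.iterate_succ_apply']

theorem hSP : StSP := by
  intro c n h h'
  constructor
  · intro hc
    refine ⟨fun t k => ?_, fun t k => ?_⟩
    · rw [iter_lb c n h h' t]
      unfold lb
      split_ifs
      · exact hc t k
      · exact le_rfl
    · rw [iter_shift c n h h' t]
      exact hc t (k + n)
  · rintro ⟨h1, h2⟩ t k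
    by_cases hk : k ≤ n
    · have h3 := h1 t k
      rw [iter_lb c n h h' t] at h3
      unfold lb at h3
      rw [if_pos hk] at h3
      exact h3
    · have h3 := h2 t (k - n)
      rw [iter_shift c n h h' t] at h3
      have e : k - n + n = k := by omega
      simp only [e] at h3
      exact h3

end Pool.Agent.Helper2.O3
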